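import Pool.Agent.helper6.EU.SpecZ

/-! # Project eu (MP_ad8ced_nt), row ZCL: the classes and the sign -/

set_option autoImplicit false

open Finset

noncomputable section

namespace Pool.Agent.EU

open Pool.Agent.FI Pool.Agent.HK Pool.Agent.BP Pool.Agent.YB
open Pool.Agent.CH (nit rgh)
open MeasureTheory

private theorem ZCL_split (q : ℕ) (hq : 0 < q) (u : ℤ) :
    (if (q : ℤ) ∣ u then (1 : ℂ) else 0) = (if ((2 * q : ℕ) : ℤ) ∣ u then 1 else 0) +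
      (if ((2 * q : ℕ) : ℤ) ∣ u - q then 1 else 0) := by
  have hq0 : (q : ℤ) ≠ 0 := by exact_mod_cast hq.ne'
  have hd : (q : ℤ) ∣ ((2 * q : ℕ) : ℤ) := by
    push_cast
    exact dvd_mul_left _ _
  by_cases h : (q : ℤ) ∣ u
  · obtain ⟨w, rfl⟩ := h
    have h1 : ((2 * q : ℕ) : ℤ) ∣ q * w ↔ 2 ∣ w := by
      push_cast
      rw [mul_comm (2 : ℤ) q]
      exact mul_dvd_mul_iff_left hq0
    have h2 : ((2 * q : ℕ) : ℤ) ∣ q * w - q ↔ 2 ∣ w - 1 := by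
      have h3 : (q : ℤ) * w - q = q * (w - 1) := by ring
      rw [h3]
      push_cast
      rw [mul_comm (2 : ℤ) q]
      exact mul_dvd_mul_iff_left hq0
    rw [if_pos (dvd_mul_right _ _)]
    by_cases h3 : (2 : ℤ) ∣ w
    · rw [if_pos (h1.2 h3), if_neg (fun h => by have := h2.1 h; omega), add_zero]
    · rw [if_neg (fun h => h3 (h1.1 h)), if_pos (h2.2 (by omega)), zero_add]
  · rw [if_neg h, if_neg (fun h' => h (hd.trans h')),
      if_neg (fun h' => h (dvd_sub_self_right.1 (hd.trans h'))), add_zero]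

private theorem ZCL_cop (q : ℕ) (z c : ℤ × ℤ) (h1 : (q : ℤ) ∣ z.1 - c.1) (h2 : (q : ℤ) ∣ z.2 - c.2)
    (hz : Nat.Coprime (nn z) q) : Nat.Coprime (nn c) q := by
  by_contra hc
  obtain ⟨p, hp, hpc, hpq⟩ := Nat.Prime.not_coprime_iff_dvd.1 hc
  refine Nat.Prime.not_coprime_iff_dvd.2 ⟨p, hp, ?_, hpq⟩ hz
  have h3 : (p : ℤ) ∣ N8 c := by
    rw [Int.natCast_dvd]
    exact hpc
  have h4 : (p : ℤ) ∣ (q : ℤ) := Int.natCast_dvd_natCast.2 hpq
  have h5 : N8 z = N8 c + ((z.1 - c.1) * (z.1 + c.1) - 8 * ((z.2 - c.2) * (z.2 + c.2))) := by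
    unfold N8
    ring
  have h6 : (p : ℤ) ∣ N8 z := by
    rw [h5]
    exact dvd_add h3 (dvd_sub ((h4.trans h1).mul_right _) (((h4.trans h2).mul_right _).mul_left _))
  rw [Int.natCast_dvd] at h6
  exact h6

/-- orthogonality, for all classes -/
private theorem ZCL_orth (q k : ℕ) (ψ : Fin k → ℤ × ℤ → ℂ) (hX : ∀ i, IsX q (ψ i))
    (horth : ∀ z c : ℤ × ℤ, Nat.Coprime (nn z) q → Nat.Coprime (nn c) q →
      ∑ i, ψ i z * (starRingEnd ℂ) (ψ i c) =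
        if (q : ℤ) ∣ z.1 - c.1 ∧ (q : ℤ) ∣ z.2 - c.2 then (k : ℂ) else 0)
    (z c : ℤ × ℤ) (hz : Nat.Coprime (nn z) q) :
    ∑ i, ψ i z * (starRingEnd ℂ) (ψ i c) =
      (k : ℂ) * ((if (q : ℤ) ∣ z.1 - c.1 then 1 else 0) * (if (q : ℤ) ∣ z.2 - c.2 then 1 else 0)) := by
  have h1 : (k : ℂ) * ((if (q : ℤ) ∣ z.1 - c.1 then 1 else 0) * (if (q : ℤ) ∣ z.2 - c.2 then 1 else 0)) =
      if (q : ℤ) ∣ z.1 - c.1 ∧ (q : ℤ) ∣ z.2 - c.2 then (k : ℂ) else 0 := by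
    by_cases h1 : (q : ℤ) ∣ z.1 - c.1 <;> by_cases h2 : (q : ℤ) ∣ z.2 - c.2 <;> simp [h1, h2]
  rw [h1]
  by_cases hc : Nat.Coprime (nn c) q
  · exact horth z c hz hc
  · rw [if_neg (fun h => hc (ZCL_cop q z c h.1 h.2 hz))]
    refine sum_eq_zero fun i _ => ?_
    rw [(hX i).2.2.2.2.1 c hc, map_zero, mul_zero]

/-- the coefficients -/
private def ZCL_b (q k : ℕ) (ψ : Fin k → ℤ × ℤ → ℂ) (c : ℤ × ℤ) (j : Fin k) : ℂ :=
  (starRingEnd ℂ) (ψ j (c.1, c.2)) + (starRingEnd ℂ) (ψ j (c.1 + q, c.2)) +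
    (starRingEnd ℂ) (ψ j (c.1, c.2 + q)) + (starRingEnd ℂ) (ψ j (c.1 + q, c.2 + q))

private theorem ZCL_norm_le (q : ℕ) (ξ : ℤ × ℤ → ℂ) (h : IsX q ξ) (z : ℤ × ℤ) : ‖ξ z‖ ≤ 1 := by
  by_cases hz : Nat.Coprime (nn z) q
  · exact (h.2.2.2.2.2 z hz).le
  · rw [h.2.2.2.2.1 z hz, norm_zero]
    exact zero_le_one

private theorem ZCL_b_le (q q' k : ℕ) (ψ : Fin k → ℤ × ℤ → ℂ) (hX : ∀ i, IsX q' (ψ i)) (c : ℤ × ℤ)
    (j : Fin k) : ‖ZCL_b q k ψ c j‖ ≤ 4 := by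
  unfold ZCL_b
  have h : ∀ z, ‖(starRingEnd ℂ) (ψ j z)‖ ≤ 1 := fun z => by
    rw [RCLike.norm_conj]
    exact ZCL_norm_le q' _ (hX j) z
  have h1 := norm_add_le ((starRingEnd ℂ) (ψ j (c.1, c.2)) + (starRingEnd ℂ) (ψ j (c.1 + q, c.2)) +
    (starRingEnd ℂ) (ψ j (c.1, c.2 + q))) ((starRingEnd ℂ) (ψ j (c.1 + q, c.2 + q)))
  have h2 := norm_add_le ((starRingEnd ℂ) (ψ j (c.1, c.2)) + (starRingEnd ℂ) (ψ j (c.1 + q, c.2)))
    ((starRingEnd ℂ) (ψ j (c.1, c.2 + q)))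
  have h3 := norm_add_le ((starRingEnd ℂ) (ψ j (c.1, c.2))) ((starRingEnd ℂ) (ψ j (c.1 + q, c.2)))
  have e1 := h (c.1, c.2)
  have e2 := h (c.1 + q, c.2)
  have e3 := h (c.1, c.2 + q)
  have e4 := h (c.1 + q, c.2 + q)
  linarith

/-- the residue class modulo `q` by the characters modulo `2q` -/
private theorem ZCL_class (q k : ℕ) (hq : 0 < q) (ψ : Fin k → ℤ × ℤ → ℂ) (hX : ∀ i, IsX (2 * q) (ψ i))
    (horth : ∀ z c : ℤ × ℤ, Nat.Coprime (nn z) (2 * q) → Nat.Coprime (nn c) (2 * q) →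
      ∑ i, ψ i z * (starRingEnd ℂ) (ψ i c) =
        if ((2 * q : ℕ) : ℤ) ∣ z.1 - c.1 ∧ ((2 * q : ℕ) : ℤ) ∣ z.2 - c.2 then (k : ℂ) else 0)
    (z c : ℤ × ℤ) (hz : Nat.Coprime (nn z) (2 * q)) :
    ∑ j, ψ j z * ZCL_b q k ψ c j =
      (k : ℂ) * ((if (q : ℤ) ∣ z.1 - c.1 then 1 else 0) * (if (q : ℤ) ∣ z.2 - c.2 then 1 else 0)) := by
  have e0 : ∑ j, ψ j z * ZCL_b q k ψ c j = ∑ j, ψ j z * (starRingEnd ℂ) (ψ j (c.1, c.2)) +
      ∑ j, ψ j z * (starRingEnd ℂ) (ψ j (c.1 + q, c.2)) +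
      ∑ j, ψ j z * (starRingEnd ℂ) (ψ j (c.1, c.2 + q)) +
      ∑ j, ψ j z * (starRingEnd ℂ) (ψ j (c.1 + q, c.2 + q)) := by
    rw [← sum_add_distrib, ← sum_add_distrib, ← sum_add_distrib]
    refine sum_congr rfl fun j _ => ?_
    unfold ZCL_b
    ring
  rw [e0, ZCL_orth _ _ ψ hX horth z _ hz, ZCL_orth _ _ ψ hX horth z _ hz,
    ZCL_orth _ _ ψ hX horth z _ hz, ZCL_orth _ _ ψ hX horth z _ hz, ZCL_split q hq (z.1 - c.1),
    ZCL_split q hq (z.2 - c.2)]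
  simp only [sub_sub]
  ring

/-- the window sums with one character -/
private def ZCL_G (N : ℕ) (β : ℕ → ℝ) (ξ : ℤ × ℤ → ℂ) (i : ℕ) (h t : ℝ) (y : ℝ) : ℂ :=
  open scoped Classical in
  ∑ z ∈ ZD N with (y < yy z ∧ yy z ≤ y + h), (β (nn z) : ℂ) * (ξ z * ((N8 z).sign : ℂ) ^ i) *
    (nn z : ℂ) ^ (-(1 / 2 : ℂ) + t * Complex.I)

private theorem ZCL_int (N : ℕ) (β : ℕ → ℝ) (ξ : ℤ × ℤ → ℂ) (i : ℕ) (h t : ℝ) :
    Integrable (fun y : ℝ => ‖ZCL_G N β ξ i h t y‖ ^ 2) := by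
  classical
  have e : (fun y : ℝ => ZCL_G N β ξ i h t y) = fun y => ∑ z ∈ ZD N,
      (Set.Ico (yy z - h) (yy z)).indicator (fun _ => (β (nn z) : ℂ) * (ξ z * ((N8 z).sign : ℂ) ^ i) *
        (nn z : ℂ) ^ (-(1 / 2 : ℂ) + t * Complex.I)) y := by
    funext y
    unfold ZCL_G
    rw [sum_filter]
    refine sum_congr rfl fun z _ => ?_
    rw [Set.indicator_apply]
    have h1 : (y < yy z ∧ yy z ≤ y + h) ↔ y ∈ Set.Ico (yy z - h) (yy z) := by
      rw [Set.mem_Ico]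
      constructor
      · rintro ⟨h1, h2⟩
        exact ⟨by linarith, h1⟩
      · rintro ⟨h1, h2⟩
        exact ⟨h2, by linarith⟩
    by_cases h2 : y ∈ Set.Ico (yy z - h) (yy z)
    · rw [if_pos (h1.2 h2), if_pos h2]
    · rw [if_neg (fun h3 => h2 (h1.1 h3)), if_neg h2]
  have h1 : MemLp (fun y : ℝ => ZCL_G N β ξ i h t y) (2 : ℕ) volume := by
    rw [e]
    refine memLp_finsetSum _ fun z _ => ?_
    refine memLp_indicator_const _ measurableSet_Ico _ (Or.inr ?_)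
    rw [Real.volume_Ico]
    exact ENNReal.ofReal_ne_top
  exact h1.integrable_norm_pow (by norm_num)

/-- the window sum of a class and a sign in terms of the sums with characters -/
private theorem ZCL_exp (hSIZ : SIZ_stmt) (N q k : ℕ) (hq : 0 < q) (hk : 0 < k)
    (ψ : Fin k → ℤ × ℤ → ℂ) (hX : ∀ i, IsX (2 * q) (ψ i))
    (horth : ∀ z c : ℤ × ℤ, Nat.Coprime (nn z) (2 * q) → Nat.Coprime (nn c) (2 * q) →
      ∑ i, ψ i z * (starRingEnd ℂ) (ψ i c) =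
        if ((2 * q : ℕ) : ℤ) ∣ z.1 - c.1 ∧ ((2 * q : ℕ) : ℤ) ∣ z.2 - c.2 then (k : ℂ) else 0)
    (β : ℕ → ℝ) (hβ : ∀ m, β m ≠ 0 → Nat.Coprime m (2 * q)) (c : ℤ × ℤ) (sg : ℤ)
    (hsg : sg = 1 ∨ sg = -1) (y h t : ℝ) :
    ZW N q c sg (fun z => β (nn z)) y h t =
      ∑ p ∈ (univ : Finset (Fin k)) ×ˢ range 2, (ZCL_b q k ψ c p.1 * (sg : ℂ) ^ p.2 / (2 * k)) *
        ZCL_G N β (ψ p.1) p.2 h t y := by
  classical
  have hk0 : (k : ℂ) ≠ 0 := by exact_mod_cast hk.ne'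
  have e1 : ZW N q c sg (fun z => β (nn z)) y h t = ∑ z ∈ ZD N with (y < yy z ∧ yy z ≤ y + h),
      if ((q : ℤ) ∣ z.1 - c.1 ∧ (q : ℤ) ∣ z.2 - c.2) ∧ (N8 z).sign = sg then
        (β (nn z) : ℂ) * (nn z : ℂ) ^ (-(1 / 2 : ℂ) + t * Complex.I) else 0 := by
    unfold ZW
    rw [sum_filter, sum_filter]
    refine sum_congr rfl fun z _ => ?_
    by_cases h1 : (q : ℤ) ∣ z.1 - c.1 ∧ (q : ℤ) ∣ z.2 - c.2 ∧ (N8 z).sign = sg ∧ y < yy z ∧ yy z ≤ y + h
    · obtain ⟨a1, a2, a3, a4⟩ := h1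
      rw [if_pos ⟨a1, a2, a3, a4⟩, if_pos a4, if_pos ⟨⟨a1, a2⟩, a3⟩]
    · rw [if_neg h1]
      by_cases h2 : y < yy z ∧ yy z ≤ y + h
      · rw [if_pos h2, if_neg]
        rintro ⟨⟨a1, a2⟩, a3⟩
        exact h1 ⟨a1, a2, a3, h2⟩
      · rw [if_neg h2]
  rw [e1]
  unfold ZCL_G
  simp only [mul_sum]
  rw [sum_comm]
  refine sum_congr rfl fun z hz => ?_
  by_cases hb : β (nn z) = 0
  · rw [hb]
    simp
  · have hcop := hβ _ hb
    have hFd : Fd z := by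
      have h1 := (mem_filter.1 hz).1
      unfold ZD at h1
      have h2 := (mem_filter.1 h1).1
      unfold FF at h2
      exact (mem_filter.1 h2).2.1
    obtain ⟨-, -, hpos, -, hN⟩ := hSIZ z hFd
    have hnn : (0 : ℤ) < nn z := by exact_mod_cast hpos
    have hs : (N8 z).sign = 1 ∨ (N8 z).sign = -1 := by
      rcases hN with h1 | h1
      · left
        rw [h1.1]
        exact Int.sign_eq_one_of_pos hnn
      · right
        rw [h1.1]
        exact Int.sign_eq_neg_one_of_neg (by linarith)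
    have hsign : (if (N8 z).sign = sg then (1 : ℂ) else 0) = (1 + (sg : ℂ) * ((N8 z).sign : ℂ)) / 2 := by
      rcases hs with h1 | h1 <;> rcases hsg with h2 | h2 <;> rw [h1, h2] <;> norm_num
    have hcl := ZCL_class q k hq ψ hX horth z c hcop
    have e2 : (if ((q : ℤ) ∣ z.1 - c.1 ∧ (q : ℤ) ∣ z.2 - c.2) ∧ (N8 z).sign = sg then
        (β (nn z) : ℂ) * (nn z : ℂ) ^ (-(1 / 2 : ℂ) + t * Complex.I) else 0) =
        ((if (q : ℤ) ∣ z.1 - c.1 then (1 : ℂ) else 0) * (if (q : ℤ) ∣ z.2 - c.2 then 1 else 0)) *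
          (if (N8 z).sign = sg then (1 : ℂ) else 0) *
          ((β (nn z) : ℂ) * (nn z : ℂ) ^ (-(1 / 2 : ℂ) + t * Complex.I)) := by
      by_cases a1 : (q : ℤ) ∣ z.1 - c.1 <;> by_cases a2 : (q : ℤ) ∣ z.2 - c.2 <;>
        by_cases a3 : (N8 z).sign = sg <;> simp [a1, a2, a3]
    rw [e2, hsign, sum_product]
    have e3 : ∀ j : Fin k, ∑ i ∈ range 2, (ZCL_b q k ψ c (j, i).1 * (sg : ℂ) ^ (j, i).2 / (2 * k)) *
        ((β (nn z) : ℂ) * (ψ (j, i).1 z * ((N8 z).sign : ℂ) ^ (j, i).2) *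
          (nn z : ℂ) ^ (-(1 / 2 : ℂ) + t * Complex.I)) =
        (ψ j z * ZCL_b q k ψ c j) * ((1 + (sg : ℂ) * ((N8 z).sign : ℂ)) / (2 * k) *
          ((β (nn z) : ℂ) * (nn z : ℂ) ^ (-(1 / 2 : ℂ) + t * Complex.I))) := by
      intro j
      rw [sum_range_succ, sum_range_succ, range_zero, sum_empty]
      ring
    rw [sum_congr rfl fun j _ => e3 j, ← sum_mul, hcl]
    field_simp

theorem ZCL (hGRX : GRX_stmt) (hSIZ : SIZ_stmt) : ZCL_stmt := by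
  classical
  intro E
  refine ⟨⌈Real.exp 16⌉₊, ?_⟩
  intro x hx N A Z T β hZ hβ H q hq1 hqL c sg h hh1 hh2 t ht
  have hx' : Real.exp 16 ≤ (x : ℝ) := (Nat.le_ceil _).trans (by exact_mod_cast hx)
  have hx0 : (0 : ℝ) < x := (Real.exp_pos _).trans_le hx'
  have hL : 16 ≤ Real.log x := by
    rw [← Real.log_exp 16]
    exact Real.log_le_log (Real.exp_pos _) hx'
  obtain ⟨L, hLd⟩ : ∃ L : ℝ, L = Real.log x := ⟨_, rfl⟩
  rw [← hLd] at hL hZ H hqL hh1 ⊢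
  have hL0 : 0 < L := by linarith
  have hnn : 0 ≤ (N : ℝ) * h ^ 2 / L ^ E := by positivity
  by_cases hsg : sg = 1 ∨ sg = -1
  · have h2q : ((2 * q : ℕ) : ℝ) ≤ L ^ (E + 1) := by
      push_cast
      have h1 : 2 * (q : ℝ) ≤ 2 * L ^ E := by linarith
      have h2 : 2 * L ^ E ≤ L * L ^ E := mul_le_mul_of_nonneg_right (by linarith) (by positivity)
      have h3 : L ^ (E + 1) = L * L ^ E := pow_succ' _ _
      linarith
    have hβ' : ∀ m, β m ≠ 0 → Nat.Coprime m (2 * q) := by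
      intro m hm
      by_contra hc
      obtain ⟨p, hp, hpm, hpq⟩ := Nat.Prime.not_coprime_iff_dvd.1 hc
      have h1 := hβ m hm p hp hpm
      have h2 : p ≤ 2 * q := Nat.le_of_dvd (by omega) hpq
      have h3 : ((2 * q : ℕ) : ℝ) ≤ Z := h2q.trans hZ
      have h4 : 2 * q ≤ Z := by exact_mod_cast h3
      omega
    obtain ⟨k, ψ, hk, -, hX, horth⟩ := hGRX (2 * q) (dvd_mul_right _ _) (by omega)
    have hk0 : (0 : ℝ) < k := by exact_mod_cast hk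
    have hG : ∀ p ∈ (univ : Finset (Fin k)) ×ˢ range 2,
        ∫ y : ℝ, ‖ZCL_G N β (ψ p.1) p.2 h t y‖ ^ 2 ≤ N * h ^ 2 / L ^ (E + 1) := by
      intro p hp
      have h1 : p.2 ≤ 1 := by
        have := mem_range.1 (mem_product.1 hp).2
        omega
      exact H (2 * q) (ψ p.1) (hX p.1) h2q p.2 h1 h t hh1 hh2 ht
    have hpt : ∀ y : ℝ, ‖ZW N q c sg (fun z => β (nn z)) y h t‖ ^ 2 ≤
        ∑ p ∈ (univ : Finset (Fin k)) ×ˢ range 2, 8 / k * ‖ZCL_G N β (ψ p.1) p.2 h t y‖ ^ 2 := by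
      intro y
      rw [ZCL_exp hSIZ N q k (by omega) hk ψ hX horth β hβ' c sg hsg y h t]
      have h1 : ‖∑ p ∈ (univ : Finset (Fin k)) ×ˢ range 2,
          (ZCL_b q k ψ c p.1 * (sg : ℂ) ^ p.2 / (2 * k)) * ZCL_G N β (ψ p.1) p.2 h t y‖ ≤
          ∑ p ∈ (univ : Finset (Fin k)) ×ˢ range 2, 2 / k * ‖ZCL_G N β (ψ p.1) p.2 h t y‖ := by
        refine (norm_sum_le _ _).trans (sum_le_sum fun p _ => ?_)
        rw [norm_mul]
        refine mul_le_mul_of_nonneg_right ?_ (norm_nonneg _)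
        rw [norm_div, norm_mul, norm_mul, norm_pow, Complex.norm_natCast]
        have h2 := ZCL_b_le q (2 * q) k ψ hX c p.1
        have h3 : ‖(sg : ℂ)‖ = 1 := by
          rcases hsg with h | h <;> rw [h] <;> simp
        rw [h3, one_pow, mul_one, Complex.norm_ofNat]
        rw [div_le_div_iff₀ (by positivity) hk0]
        nlinarith
      refine (pow_le_pow_left₀ (norm_nonneg _) h1 2).trans ?_
      rw [← mul_sum, mul_pow]
      have h2 := sq_sum_le_card_mul_sum_sq (s := (univ : Finset (Fin k)) ×ˢ range 2)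
        (f := fun p => ‖ZCL_G N β (ψ p.1) p.2 h t y‖)
      have h3 : (#((univ : Finset (Fin k)) ×ˢ range 2) : ℝ) = 2 * k := by
        rw [card_product, card_univ, Fintype.card_fin, card_range]
        push_cast
        ring
      rw [h3] at h2
      refine (mul_le_mul_of_nonneg_left h2 (by positivity)).trans (le_of_eq ?_)
      rw [← mul_sum]
      field_simp
      ring
    have hint : ∀ p ∈ (univ : Finset (Fin k)) ×ˢ range 2,
        Integrable (fun y : ℝ => 8 / k * ‖ZCL_G N β (ψ p.1) p.2 h t y‖ ^ 2) := fun p _ =>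
      (ZCL_int N β (ψ p.1) p.2 h t).const_mul _
    have h4 : ∫ y : ℝ, ‖ZW N q c sg (fun z => β (nn z)) y h t‖ ^ 2 ≤
        ∫ y : ℝ, ∑ p ∈ (univ : Finset (Fin k)) ×ˢ range 2, 8 / k * ‖ZCL_G N β (ψ p.1) p.2 h t y‖ ^ 2 :=
      integral_mono_of_nonneg (Filter.Eventually.of_forall fun y => by positivity)
        (integrable_finsetSum _ hint) (Filter.Eventually.of_forall hpt)
    refine h4.trans ?_
    rw [integral_finsetSum _ hint]
    have h5 : ∀ p ∈ (univ : Finset (Fin k)) ×ˢ range 2,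
        ∫ y : ℝ, 8 / k * ‖ZCL_G N β (ψ p.1) p.2 h t y‖ ^ 2 ≤ 8 / k * (N * h ^ 2 / L ^ (E + 1)) := by
      intro p hp
      rw [integral_const_mul]
      exact mul_le_mul_of_nonneg_left (hG p hp) (by positivity)
    refine (sum_le_sum h5).trans ?_
    rw [sum_const, nsmul_eq_mul, card_product, card_univ, Fintype.card_fin, card_range]
    push_cast
    have h6 : (k : ℝ) * 2 * (8 / k * (N * h ^ 2 / L ^ (E + 1))) = 16 / L * (N * h ^ 2 / L ^ E) := by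
      rw [pow_succ]
      field_simp
      ring
    rw [h6]
    have h7 : 16 / L ≤ 1 := by
      rw [div_le_one hL0]
      exact hL
    calc 16 / L * (N * h ^ 2 / L ^ E) ≤ 1 * (N * h ^ 2 / L ^ E) :=
          mul_le_mul_of_nonneg_right h7 hnn
      _ = N * h ^ 2 / L ^ E := one_mul _
  · have h0 : ∀ y : ℝ, ZW N q c sg (fun z => β (nn z)) y h t = 0 := by
      intro y
      unfold ZW
      refine sum_eq_zero fun z hz => ?_
      exfalso
      have h1 := (mem_filter.1 hz).2.2.2.1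
      have hFd : Fd z := by
        have h1 := (mem_filter.1 hz).1
        unfold ZD at h1
        have h2 := (mem_filter.1 h1).1
        unfold FF at h2
        exact (mem_filter.1 h2).2.1
      obtain ⟨-, -, hpos, -, hN⟩ := hSIZ z hFd
      have hnn : (0 : ℤ) < nn z := by exact_mod_cast hpos
      apply hsg
      rcases hN with h2 | h2
      · left
        rw [← h1, h2.1]
        exact Int.sign_eq_one_of_pos hnn
      · right
        rw [← h1, h2.1]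
        exact Int.sign_eq_neg_one_of_neg (by linarith)
    have h1 : ∀ y : ℝ, ‖ZW N q c sg (fun z => β (nn z)) y h t‖ ^ 2 = 0 := by
      intro y
      rw [h0 y]
      simp
    simp only [h1, integral_zero]
    exact hnn

end Pool.Agent.EU
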